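import Pool.Agent.helper3.SP.SpecPP

/-! # Project sp, module PP31 -/

namespace TP

open DP MeasureTheory

theorem PP31_con_self {W : Set V} {u v : V} (h : Con W u v) : Con {w | Con W u w} u v := by
  refine Con.induct h (fun a => Con {w | Con W u w} u a) (DP.Con.refl (DP.Con.refl h.1)) ?_
  intro a b ha hb hab hua h2
  exact h2.tail hab (hua.tail hab hb)

theorem PP31_hok {U W : Set V} {A u v : V} {r : ℕ} (hU : Hok U A r) (h : Con W u v)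
    (h1 : sd A u ≤ r) (h2 : 3 * r ≤ sd A v) : ∃ q ∈ U, Con W u q := by
  obtain ⟨q, hq, hq'⟩ := hU _ u v (PP31_con_self h) h1 h2
  exact ⟨q, hq, hq'⟩

theorem PP31_rc {c : V → Bool} {z v : V} (h : c v = false) : rc c z false v = false := by
  unfold rc
  split_ifs
  · rfl
  · exact h

theorem PP31_lps {c c' : V → Bool} (h : ∀ v, c v = false → c' v = false) {Ls : List (V × ℕ)}
    (hL : Lps c false Ls) : Lps c' false Ls := by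
  intro q hq
  obtain ⟨S, l, u, hp, ho, hS⟩ := hL q hq
  exact ⟨S, l, u, hp.mono fun v hv => ⟨hv.1, hv.2.1, h v hv.2.2⟩, ho, hS⟩

theorem PP31_zpt_sd (x : V) (n i : ℕ) : sd x (zpt x n i) = n := by
  unfold zpt
  split_ifs <;> simp [sd]

theorem PP31_zpt13 (x : V) (n : ℕ) : sd (zpt x n 1) (zpt x n 3) = 2 * n := by
  simp only [zpt, sd]
  norm_num
  omega

/-- One arm. -/
theorem PP31_arm {W : Set V} {x p w : V} {k₁ k₂ n : ℕ} (hp : sd x p ≤ k₂)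
    (hW : ∀ v ∈ W, k₁ ≤ sd x v) (hk : k₂ ≤ n)
    (hw : n ≤ sd x w) (h : Con W p w) :
    ∃ u s : V, sd x u = n ∧ sd x s = k₂ ∧ Con (W ∩ ann x k₂ n) s u ∧ Con (W ∩ ann x k₁ n) p u ∧
      Con W u w := by
  obtain ⟨u, hu, h1, h2⟩ := h.exit (hp.trans hk) hw
  obtain ⟨s, hs, h3, h4⟩ := h1.symm.enter (m := k₂) (by omega) hp
  refine ⟨u, s, hu, hs, h3.symm.mono ?_, h1.mono ?_, h2⟩
  · rintro v ⟨⟨hv1, hv2⟩, hv3⟩
    exact ⟨hv1, hv3, hv2⟩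
  · rintro v ⟨hv1, hv2⟩
    exact ⟨hv1, hW v hv1, hv2⟩

theorem PP31_core (hPP30 : PP30_stmt) (c : V → Bool) (x : V) (n₂ ℓ₃ : ℕ) (hx : Even (x.1 + x.2))
    (h64 : 1 ≤ ℓ₃) (hn : 1024 * ℓ₃ ≤ n₂) (hB : Mk4 c x (256 * ℓ₃) (2 * n₂) true)
    (hO : Mk4 c x (256 * ℓ₃) (2 * n₂) false) :
    ∃ (p u s : Bool → V), (∀ e : Bool, sd (zpt x (256 * ℓ₃) (tb4 e)) (p e) ≤ 4 * ℓ₃ ∧
      u e ∈ bd x n₂ ∧ s e ∈ bd x (512 * ℓ₃) ∧ Conn c false (ann x (512 * ℓ₃) n₂) (s e) (u e) ∧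
      Conn c false (ann x (256 * ℓ₃) n₂) (p e) (u e)) ∧
      ¬ Conn c false (ann x (512 * ℓ₃) n₂) (u true) (u false) := by
  have hStd : Std c 4 true x (2 * n₂) (Dmark 4 x (256 * ℓ₃)) := ⟨hB, hO⟩
  have key : ∀ (w p : Bool → V), (∀ e : Bool, w e ∈ bd x (2 * n₂) ∧ p e ∈ bd x (256 * ℓ₃) ∧
      sd (zpt x (256 * ℓ₃) (tb4 e)) (p e) ≤ 4 * ℓ₃ ∧
      Conn c false (ann x (256 * ℓ₃) (2 * n₂)) (p e) (w e)) →
      ¬ Conn c false (ann x (256 * ℓ₃) (2 * n₂)) (w true) (w false) →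
      ∃ (p u s : Bool → V), (∀ e : Bool, sd (zpt x (256 * ℓ₃) (tb4 e)) (p e) ≤ 4 * ℓ₃ ∧
      u e ∈ bd x n₂ ∧ s e ∈ bd x (512 * ℓ₃) ∧ Conn c false (ann x (512 * ℓ₃) n₂) (s e) (u e) ∧
      Conn c false (ann x (256 * ℓ₃) n₂) (p e) (u e)) ∧
      ¬ Conn c false (ann x (512 * ℓ₃) n₂) (u true) (u false) := by
    intro w p hwp hnot
    have h1 : ∀ e : Bool, ∃ u s : V, sd x u = n₂ ∧ sd x s = 512 * ℓ₃ ∧
        Con ({v | v ∈ ann x (256 * ℓ₃) (2 * n₂) ∧ c v = false} ∩ ann x (512 * ℓ₃) n₂) s u ∧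
        Con ({v | v ∈ ann x (256 * ℓ₃) (2 * n₂) ∧ c v = false} ∩ ann x (256 * ℓ₃) n₂) (p e) u ∧
        Con {v | v ∈ ann x (256 * ℓ₃) (2 * n₂) ∧ c v = false} u (w e) := by
      intro e
      obtain ⟨a1, a2, a3, a4⟩ := hwp e
      have b1 : sd x (w e) = 2 * n₂ := a1
      have b2 : sd x (p e) = 256 * ℓ₃ := a2
      exact PP31_arm (by omega) (fun v hv => hv.1.1) (by omega) (by omega) a4
    choose u s h2 h3 h4 h5 h6 using h1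
    refine ⟨p, u, s, fun e => ⟨(hwp e).2.2.1, h2 e, h3 e, (h4 e).mono ?_, (h5 e).mono ?_⟩, ?_⟩
    · rintro v ⟨⟨-, hv1⟩, hv2⟩
      exact ⟨hv2, hv1⟩
    · rintro v ⟨⟨-, hv1⟩, hv2⟩
      exact ⟨hv2, hv1⟩
    · intro hc
      apply hnot
      have h7 : Conn c false (ann x (256 * ℓ₃) (2 * n₂)) (u true) (u false) := by
        refine hc.mono ?_
        rintro v ⟨hv1, hv2⟩
        exact ⟨by omega, by omega⟩
      have h8 : Conn c false (ann x (256 * ℓ₃) (2 * n₂)) (u true) (w true) := h6 true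
      have h9 : Conn c false (ann x (256 * ℓ₃) (2 * n₂)) (u false) (w false) := h6 false
      exact (h8.symm.trans h7).trans h9
  have hsub : HS true x (2 * n₂) \ ((Dmark 4 x (256 * ℓ₃)).N false ∪
      opp 4 (zpt x (2 * n₂)) (2 * n₂ / 8) false) ⊆ ann x (256 * ℓ₃) (2 * n₂) := by
    rintro v ⟨hv1, hv2⟩
    refine ⟨?_, hv1⟩
    by_contra hlt
    exact hv2 (Or.inl (Or.inl (not_le.1 hlt)))
  have h64' : 256 * ℓ₃ / 64 = 4 * ℓ₃ := by omega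
  have k1 : kol 1 = false := by decide
  have k3 : kol 3 = false := by decide
  rcases hO with hO | hO
  · obtain ⟨p₁, ⟨hp₁, hp₁'⟩, w₁, hw₁, hw₁', hc₁⟩ := hO 1 (by norm_num) k1
    obtain ⟨p₃, ⟨hp₃, hp₃'⟩, w₃, hw₃, hw₃', hc₃⟩ := hO 3 (by norm_num) k3
    rw [h64'] at hp₁' hp₃'
    have d₁ := hc₁.mono hsub
    have d₃ := hc₃.mono hsub
    refine key (fun e => if e = true then w₁ else w₃) (fun e => if e = true then p₁ else p₃) ?_ ?_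
    · intro e
      cases e
      · exact ⟨hw₃, hp₃, hp₃', d₃⟩
      · exact ⟨hw₁, hp₁, hp₁', d₁⟩
    · exact hPP30 c false x w₁ w₃ p₁ p₃ (256 * ℓ₃) (2 * n₂) hx (by omega) (by omega) hStd hw₁ hw₃
        hp₁ hp₃ hw₁' hw₃' d₁ d₃
  · obtain ⟨p₁, ⟨hp₁, hp₁'⟩, w₁, hw₁, hw₁', hc₁⟩ := hO 1 (by norm_num) k1
    obtain ⟨p₃, ⟨hp₃, hp₃'⟩, w₃, hw₃, hw₃', hc₃⟩ := hO 3 (by norm_num) k3
    rw [h64'] at hp₁' hp₃'
    have d₁ := hc₁.mono hsub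
    have d₃ := hc₃.mono hsub
    refine key (fun e => if e = true then w₁ else w₃) (fun e => if e = true then p₁ else p₃) ?_ ?_
    · intro e
      cases e
      · exact ⟨hw₃, hp₃, hp₃', d₃⟩
      · exact ⟨hw₁, hp₁, hp₁', d₁⟩
    · intro hc
      exact hPP30 c false x w₃ w₁ p₃ p₁ (256 * ℓ₃) (2 * n₂) hx (by omega) (by omega) hStd hw₃ hw₁
        hp₃ hp₁ hw₃' hw₁' d₃ d₁ hc.symm

theorem PP31 (hPP28 : PP28_stmt) (hPP30 : PP30_stmt) : PP31_stmt := by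
  intro c x m₀ n₂ m₁ ℓ₁ ℓ S ℓ₃ hPar hx hm₁ hB hW hL
  obtain ⟨hm0, hm0', hℓ, hS, hℓ₃, hn⟩ := id hPar
  obtain ⟨hIn, hCo, h6x, h6y, h6o, hO⟩ := hW
  obtain ⟨z, hz, hyz, p₀, hp₀, u₀, hu₀, hp₀', hu₀', hcore⟩ := hCo
  have hS3 : S ≤ S ^ 3 := by
    calc S = S ^ 1 := (pow_one S).symm
      _ ≤ S ^ 3 := Nat.pow_le_pow_right (by omega) (by norm_num)
  have hSℓ : S * ℓ ≤ S ^ 3 * ℓ := Nat.mul_le_mul_right _ hS3
  have hSℓ1 : 16 * ℓ ≤ S * ℓ := Nat.mul_le_mul_right _ hS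
  have hmono : ∀ v, c v = false → rc c z false v = false := fun v hv => PP31_rc hv
  obtain ⟨K, hK⟩ := hPP28 (rc c z false) x m₀ (2 * n₂) ℓ₁ ℓ S ℓ₃ hPar (SxW_mono hmono h6x)
    (SxW_mono hmono h6y) (SxW_mono hmono h6o) (PP31_lps hmono hL)
  obtain ⟨p, u, s, hpus, hnot⟩ := PP31_core hPP30 c x n₂ ℓ₃ hx (by omega) (by omega) hB hO
  refine ⟨z, hz, hyz, u true, u false, s true, s false, (hpus true).2.1, (hpus false).2.1,
    (hpus true).2.2.1, (hpus false).2.2.1, (hpus true).2.2.2.1, (hpus false).2.2.2.1, hnot, ?_⟩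
  -- the arms meet K e
  have harm : ∀ e : Bool, ∃ q ∈ K e, Conn (rc c z false) false (ann x m₁ n₂) (u e) q := by
    intro e
    obtain ⟨a1, a2, a3, a4, a5⟩ := hpus e
    have a5' : Conn (rc c z false) false (ann x (256 * ℓ₃) n₂) (p e) (u e) :=
      Conn.colour_mono (fun v _ => hmono v) a5
    have hfar : 3 * (8 * ℓ₃) ≤ sd (zpt x (256 * ℓ₃) (tb4 e)) (u e) := by
      have h1 := sd_triangle x (zpt x (256 * ℓ₃) (tb4 e)) (u e)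
      rw [PP31_zpt_sd] at h1
      have h2 : sd x (u e) = n₂ := a2
      omega
    obtain ⟨q, hq, hpq⟩ := PP31_hok (hK e).2.2.2 a5' (by omega) hfar
    refine ⟨q, hq, ?_⟩
    have h3 : Conn (rc c z false) false (ann x (256 * ℓ₃) n₂) (u e) q :=
      (Conn.symm a5').trans hpq
    refine h3.mono ?_
    rintro v ⟨hv1, hv2⟩
    exact ⟨by omega, hv2⟩
  -- the set K e
  have hset : ∀ e : Bool, ∀ q ∈ K e, ∀ q' ∈ K e,
      Conn (rc c z false) false (ann x m₁ n₂) q q' := by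
    intro e q hq q' hq'
    refine ((hK e).1.2 q hq q' hq').mono ?_
    intro v hv
    obtain ⟨⟨hv1, hv2⟩, hv3⟩ := (hK e).1.1 v hv
    exact ⟨⟨by omega, by omega⟩, hv3⟩
  -- the core path
  have hcore' : Conn (rc c z false) false (ann x m₁ n₂) p₀ u₀ := by
    refine hcore.mono ?_
    rintro v ⟨hv1, -⟩
    have hv1' : sd (yc x ℓ S) v ≤ 32 * ℓ₁ := hv1
    have hxy : sd x (yc x ℓ S) = 32 * (S * ℓ) := by
      simp only [yc, sd]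
      have : (x.1 - (x.1 + 32 * (S : ℤ) * (ℓ : ℤ))).natAbs = 32 * (S * ℓ) := by
        have e : x.1 - (x.1 + 32 * (S : ℤ) * (ℓ : ℤ)) = -((32 * (S * ℓ) : ℕ) : ℤ) := by
          push_cast
          ring
        rw [e, Int.natAbs_neg, Int.natAbs_natCast]
      rw [this]
      simp
    have h1 := sd_triangle x (yc x ℓ S) v
    have h2 := sd_triangle x v (yc x ℓ S)
    rw [sd_comm v] at h2
    exact ⟨by omega, by omega⟩
  have h13 := PP31_zpt13 (yc x ℓ S) (32 * ℓ₁)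
  have hd : 32 * ℓ₁ / 64 ≤ ℓ₁ := by omega
  obtain ⟨q₁, hq₁, hc₁⟩ := PP31_hok (hK true).2.2.1 hcore' (show sd _ p₀ ≤ ℓ₁ from hp₀'.trans hd) (by
    have h1 := sd_triangle (zpt (yc x ℓ S) (32 * ℓ₁) 1) u₀ (zpt (yc x ℓ S) (32 * ℓ₁) 3)
    rw [sd_comm u₀] at h1
    show 3 * ℓ₁ ≤ sd (zpt (yc x ℓ S) (32 * ℓ₁) 1) u₀
    omega)
  obtain ⟨q₃, hq₃, hc₃⟩ := PP31_hok (hK false).2.2.1 hcore'.symm
    (show sd _ u₀ ≤ ℓ₁ from hu₀'.trans hd) (by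
    have h1 := sd_triangle (zpt (yc x ℓ S) (32 * ℓ₁) 3) p₀ (zpt (yc x ℓ S) (32 * ℓ₁) 1)
    rw [sd_comm p₀, sd_comm (zpt (yc x ℓ S) (32 * ℓ₁) 3) (zpt (yc x ℓ S) (32 * ℓ₁) 1)] at h1
    show 3 * ℓ₁ ≤ sd (zpt (yc x ℓ S) (32 * ℓ₁) 3) p₀
    omega)
  obtain ⟨r₁, hr₁, hd₁⟩ := harm true
  obtain ⟨r₃, hr₃, hd₃⟩ := harm false
  have e1 : Conn (rc c z false) false (ann x m₁ n₂) (u true) q₁ :=
    hd₁.trans (hset true r₁ hr₁ q₁ hq₁)
  have e2 : Conn (rc c z false) false (ann x m₁ n₂) q₁ p₀ := Conn.symm hc₁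
  have e3 : Conn (rc c z false) false (ann x m₁ n₂) u₀ q₃ := hc₃
  have e4 : Conn (rc c z false) false (ann x m₁ n₂) q₃ (u false) :=
    (hset false q₃ hq₃ r₃ hr₃).trans hd₃.symm
  exact (((e1.trans e2).trans hcore').trans e3).trans e4

end TP
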